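import Pool.Agent.TH377.Hyp.Smooth
import Pool.Agent.TH377.Hyp.Dens
import Pool.Agent.TH377.HB.Adelic
import Pool.Agent.TH377.Dyn.Main
import Pool.Agent.TH377.Dyn.Box

/-!
# MP_ed3816_nt: quartic K3 surfaces without adelic points over all fields of many degrees

Let `K` be a number field, `b ∈ O_K`, and let `F_0`, `F_1` be binary quartic forms over `O_K`.  We consider
the quartic surfaces in `P³`, with the homogeneous coordinates `x_{00}, x_{01}, x_{10}, x_{11}`,

  `X_G : F_0(x_{00}, x_{01}) + b F_1(x_{10}, x_{11}) + G = 0`,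

where `G` is ANY quartic form over `O_K` whose coefficients are divisible by `b`, and by `b²` at the
monomials in `x_{10}, x_{11}` alone.  So these are the surfaces `F_0(x_{00}, x_{01}) + b H = 0` with an
arbitrary quartic form `H` such that `H(0, 0, x_{10}, x_{11})` is congruent to `F_1` modulo `b`.  For
`b = 1` these are all quartic surfaces, so the family dominates the space of all quartic surfaces.

We prove: for 100% of the vectors `(b, F_0, F_1)` the surface `X_0` is smooth, and for ALL number fields
`L` that contain `K` and whose degree over `K` is not divisible by `4` there is a prime `w` of `L` such that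
for ALL `G` as above the surface `X_G` has no point over the completion `L_w`.  So, if `X_G` is smooth, it
is a K3 surface, and `X_G(A_L)` is empty for all these `L`; in particular `X_G(L)` is dense in
`X_G(A_L)^Br`, which is what the question asks for, for a trivial reason, but for all `G` and for all
extensions `L` of a degree not divisible by `4`.  The exceptional set of vectors does not depend on `G` or
`L`.  It has density zero in boxes (with respect to any integral basis), and in a stronger sense: for
every `ε > 0` there is an ideal `I ≠ 0` such that the exceptional vectors lie in at most `ε #(O_K/I)^11`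
classes modulo `I`.

Proof.  Let `v` be a prime of `K` that divides `b` exactly once, such that `F_0` and `F_1` are irreducible
of degree `4` modulo `v`.  Because of `∑ e(w|v) f(w|v) = [L : K]` there is a place `w` of `L` above `v`
such that `4` divides neither `f(w|v)` nor `e(w|v)`.  So the forms `F_j` have no zeros over the residue
field of `w`, and `w(F_j(x, y)) = 4 min(w(x), w(y))` for all `x, y ∈ L_w`.  So the values of the terms
`F_0` and `b F_1` at a vector with coordinates in `L_w` are congruent to `0` and `e(w|v)` modulo `4`, and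
they are different.  The value of `G` is larger than the smaller one of these values.  So the sum is not
zero.  The prime `v` exists for almost all vectors, because the conditions hold for a proportion of at
least `(1/N v - 1/(N v)²)/256` of all vectors modulo `v²`, and the sum of the `1/N v` diverges.

For the points over `L` itself on more general hypersurfaces see
`MP_9410e4_ag.DegreesOfPoints`, for zero-cycles over `K_v` see `MP_1ad228_nt.HypersurfaceIndex`.
-/

set_option autoImplicit false
set_option maxHeartbeats 400000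

open NumberField Filter Topology IsDedekindDomain

namespace Pool.Agent.Results.MP_ed3816_nt.QuarticsWithoutAdelicPoints

universe u v w

/-- The coefficient of `x_{j0}^i x_{j1}^{d-i}` in `F_j`: the entry number `1 + j (d + 1) + i` of the
vector `c`.  The entry number `0` is `b`. -/
def coef {R : Type u} {k d : ℕ} (c : Fin (k * (d + 1) + 1) → R) (j : Fin k) (i : Fin (d + 1)) : R :=
  c (finProdFinEquiv (j, i)).succ

/-- The form `∑_j b^j F_j(x_{j0}, x_{j1}) + G`. -/
noncomputable def form {R : Type u} [CommRing R] {k d : ℕ} (c : Fin (k * (d + 1) + 1) → R)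
    (G : MvPolynomial (Fin k × Fin 2) R) : MvPolynomial (Fin k × Fin 2) R :=
  ∑ j : Fin k, MvPolynomial.C (c 0 ^ (j : ℕ)) * (∑ i : Fin (d + 1),
    MvPolynomial.C (coef c j i) * (MvPolynomial.X (j, 0) ^ (i : ℕ) *
      MvPolynomial.X (j, 1) ^ (d - i))) + G

/-- The weight of a monomial: the variables `x_{j0}, x_{j1}` have weight `j`. -/
def weight {k : ℕ} (α : Fin k × Fin 2 →₀ ℕ) : ℕ := ∑ p, (p.1 : ℕ) * α p

/-- `G` is a form of degree `d` whose coefficient at every monomial of weight `w` is divisible by
`b^(⌊w/d⌋ + 1)`. -/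
def Allowed {R : Type u} [CommRing R] (k d : ℕ) (b : R) (G : MvPolynomial (Fin k × Fin 2) R) :
    Prop :=
  G.IsHomogeneous d ∧ ∀ α, b ^ (weight α / d + 1) ∣ G.coeff α

/-- The hypersurface `F = 0` over `O_K` has no point over the completion `L_w`: no vector `x ≠ 0` with
entries in `L_w` is a zero of `F`. -/
def NoPointOver {K : Type u} [Field K] {k : ℕ} (L : Type v) [Field L] [NumberField L]
    [Algebra K L] (w : HeightOneSpectrum (𝓞 L)) (F : MvPolynomial (Fin k × Fin 2) (𝓞 K)) : Prop :=
  ∀ x : Fin k × Fin 2 → w.adicCompletion L, x ≠ 0 →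
    MvPolynomial.eval₂ ((algebraMap L (w.adicCompletion L)).comp (algebraMap (𝓞 K) L)) x F ≠ 0

/-- The vectors `c = (b, F_0, …, F_{k-1})` that do not have the following property: `b ≠ 0`, the
hypersurface `∑_j b^j F_j = 0` is smooth, and for all number fields `L` over `K` whose degree over `K` is
not divisible by `4` there is a prime `w` of `L` such that for all allowed `G` the hypersurface
`∑_j b^j F_j + G = 0` has no point over `L_w`. -/
def Exceptional (K : Type u) [Field K] (k d : ℕ) : Set (Fin (k * (d + 1) + 1) → 𝓞 K) :=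
  {c | ¬ (c 0 ≠ 0 ∧
    (∀ x : Fin k × Fin 2 → AlgebraicClosure K, x ≠ 0 →
      ∃ p, MvPolynomial.aeval x (MvPolynomial.pderiv p (form c 0)) ≠ 0) ∧
    ∀ (L : Type v) [Field L] [NumberField L] [Algebra K L], ¬ 4 ∣ Module.finrank K L →
      ∃ w : HeightOneSpectrum (𝓞 L), ∀ G : MvPolynomial (Fin k × Fin 2) (𝓞 K),
        Allowed k d (c 0) G → NoPointOver L w (form c G))}

/-- Density zero: for every `ε > 0` there is an ideal `I ≠ 0` such that `E` lies in at most
`ε #(O_K/I)ᴺ` residue classes modulo `I`. -/
def DensityZero {K : Type u} [Field K] {N : ℕ} (E : Set (Fin N → 𝓞 K)) : Prop :=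
  ∀ ε : ℝ, 0 < ε → ∃ I : Ideal (𝓞 K), I ≠ ⊥ ∧
    (Set.ncard ((fun (t : Fin N → 𝓞 K) i => Ideal.Quotient.mk I (t i)) '' E) : ℝ) ≤
      ε * (Nat.card (𝓞 K ⧸ I) : ℝ) ^ N

/-- The vectors all of whose entries have coordinates of absolute value at most `H` in the integral
basis `ω`. -/
def Box {K : Type u} [Field K] {J : Type w} (ω : Module.Basis J ℤ (𝓞 K)) (N H : ℕ) :
    Set (Fin N → 𝓞 K) :=
  {c | ∀ i j, |ω.repr (c i) j| ≤ (H : ℤ)}

section proof

open Pool.Agent.TH377.Dyn Pool.Agent.TH377.Sup Pool.Agent.TH377.Hyp Pool.Agent.TH377.HB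

/-- the polynomial of a block -/
noncomputable def bp {K : Type u} [Field K] {k d : ℕ} (c : Fin (k * (d + 1) + 1) → 𝓞 K)
    (j : Fin k) : Polynomial (𝓞 K) := pol fun i => coef c j i

lemma bp_facts {K : Type u} [Field K] [NumberField K] {k d : ℕ}
    (c : Fin (k * (d + 1) + 1) → 𝓞 K) (j : Fin k)
    (v : HeightOneSpectrum (𝓞 K)) (h : IrrMod v d fun i => coef c j i) :
    (bp c j).natDegree = d ∧ (bp c j).leadingCoeff ∉ v.asIdeal ∧
      Irreducible ((bp c j).map (Ideal.Quotient.mk v.asIdeal)) := by
  have h0 : coef c j (Fin.last d) ≠ 0 := fun h0 => h.1 (by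
    change coef c j (Fin.last d) ∈ v.asIdeal
    rw [h0]
    exact zero_mem _)
  refine ⟨pol_natDegree (fun i : Fin (d + 1) => coef c j i) h0, ?_, ?_⟩
  · rw [bp, pol_leadingCoeff (fun i : Fin (d + 1) => coef c j i) h0]
    exact h.1
  · rw [bp, pol_map]
    exact h.2

lemma bp_coeff {K : Type u} [Field K] {k d : ℕ} (c : Fin (k * (d + 1) + 1) → 𝓞 K)
    (j : Fin k) (i : Fin (d + 1)) : (bp c j).coeff i = coef c j i :=
  pol_coeff (fun i : Fin (d + 1) => coef c j i) i

/-- the value of the form -/
lemma eval_form {K : Type u} [Field K] {M : Type v} [Field M] {k d : ℕ} (φ : 𝓞 K →+* M)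
    (c : Fin (k * (d + 1) + 1) → 𝓞 K) (G : MvPolynomial (Fin k × Fin 2) (𝓞 K))
    (x : Fin k × Fin 2 → M) :
    MvPolynomial.eval₂ φ x (form c G) = ∑ j : Fin k, (φ (c 0)) ^ (j : ℕ) *
      bin ((bp c j).map φ) d (x (j, 0)) (x (j, 1)) +
      MvPolynomial.eval x (MvPolynomial.map φ G) := by
  rw [MvPolynomial.eval_map]
  change MvPolynomial.eval₂Hom φ x _ = _ + MvPolynomial.eval₂Hom φ x G
  rw [form, map_add]
  congr 1
  rw [map_sum]
  refine Finset.sum_congr rfl fun j _ => ?_
  rw [map_mul, map_sum, MvPolynomial.eval₂Hom_C, map_pow, bin]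
  congr 1
  refine Finset.sum_congr rfl fun i _ => ?_
  rw [map_mul, map_mul, map_pow, map_pow, MvPolynomial.eval₂Hom_C, MvPolynomial.eval₂Hom_X',
    MvPolynomial.eval₂Hom_X', Polynomial.coeff_map, bp_coeff]

/-- the first partial derivatives -/
lemma pderiv_zero {R : Type u} [CommRing R] {L : Type v} [Field L] [Algebra R L] {k d : ℕ}
    (c : Fin (k * (d + 1) + 1) → R) (x : Fin k × Fin 2 → L) (j : Fin k) :
    MvPolynomial.aeval x (MvPolynomial.pderiv (j, 0) (form c 0)) =
      (algebraMap R L (c 0)) ^ (j : ℕ) * ∑ i : Fin (d + 1), algebraMap R L (coef c j i) *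
        ((((i : ℕ) : L) * x (j, 0) ^ ((i : ℕ) - 1)) * x (j, 1) ^ (d - i)) := by
  classical
  rw [form, add_zero, map_sum, map_sum, Finset.sum_eq_single j]
  · rw [MvPolynomial.pderiv_C_mul, map_mul, MvPolynomial.aeval_C,
      map_pow, map_sum, map_sum]
    congr 1
    refine Finset.sum_congr rfl fun i _ => ?_
    rw [MvPolynomial.pderiv_C_mul, map_mul, MvPolynomial.aeval_C,
      MvPolynomial.pderiv_mul, MvPolynomial.pderiv_pow, MvPolynomial.pderiv_pow,
      MvPolynomial.pderiv_X_self, MvPolynomial.pderiv_X_of_ne (by simp)]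
    congr 1
    simp only [mul_one, mul_zero, add_zero, map_mul, map_natCast, map_pow, MvPolynomial.aeval_X]
  · intro j' _ hj'
    rw [MvPolynomial.pderiv_C_mul, map_sum, Finset.sum_eq_zero,
      mul_zero, map_zero]
    intro i _
    rw [MvPolynomial.pderiv_C_mul,
      MvPolynomial.pderiv_mul, MvPolynomial.pderiv_pow, MvPolynomial.pderiv_pow,
      MvPolynomial.pderiv_X_of_ne (by simp [hj']), MvPolynomial.pderiv_X_of_ne (by simp)]
    simp
  · intro h
    exact absurd (Finset.mem_univ j) h

lemma pderiv_one {R : Type u} [CommRing R] {L : Type v} [Field L] [Algebra R L] {k d : ℕ}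
    (c : Fin (k * (d + 1) + 1) → R) (x : Fin k × Fin 2 → L) (j : Fin k) :
    MvPolynomial.aeval x (MvPolynomial.pderiv (j, 1) (form c 0)) =
      (algebraMap R L (c 0)) ^ (j : ℕ) * ∑ i : Fin (d + 1), algebraMap R L (coef c j i) *
        (x (j, 0) ^ (i : ℕ) * (((d - i : ℕ) : L) * x (j, 1) ^ (d - i - 1))) := by
  classical
  rw [form, add_zero, map_sum, map_sum, Finset.sum_eq_single j]
  · rw [MvPolynomial.pderiv_C_mul, map_mul, MvPolynomial.aeval_C,
      map_pow, map_sum, map_sum]
    congr 1
    refine Finset.sum_congr rfl fun i _ => ?_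
    rw [MvPolynomial.pderiv_C_mul, map_mul, MvPolynomial.aeval_C,
      MvPolynomial.pderiv_mul, MvPolynomial.pderiv_pow, MvPolynomial.pderiv_pow,
      MvPolynomial.pderiv_X_self, MvPolynomial.pderiv_X_of_ne (by simp)]
    congr 1
    simp only [mul_one, mul_zero, zero_mul, zero_add, map_mul, map_natCast, map_pow,
      MvPolynomial.aeval_X]
  · intro j' _ hj'
    rw [MvPolynomial.pderiv_C_mul, map_sum, Finset.sum_eq_zero,
      mul_zero, map_zero]
    intro i _
    rw [MvPolynomial.pderiv_C_mul,
      MvPolynomial.pderiv_mul, MvPolynomial.pderiv_pow, MvPolynomial.pderiv_pow,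
      MvPolynomial.pderiv_X_of_ne (by simp), MvPolynomial.pderiv_X_of_ne (by simp [hj'])]
    simp
  · intro h
    exact absurd (Finset.mem_univ j) h

lemma good {K : Type u} [Field K] [NumberField K] {k d : ℕ} (hk : 2 ≤ k) (hd : 2 ≤ d)
    (hk2 : k = 2) (hd4 : d = 4)
    (c : Fin (k * (d + 1) + 1) → 𝓞 K) (v : HeightOneSpectrum (𝓞 K)) (hv : c 0 ∈ v.asIdeal)
    (hv2 : c 0 ∉ v.asIdeal ^ 2) (h : ∀ j, IrrMod v d fun i => coef c j i) :
    c ∉ Exceptional.{u, v} K k d := by
  intro hc
  apply hc
  have h0 : c 0 ≠ 0 := by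
    intro h0
    apply hv2
    rw [h0]
    exact zero_mem _
  refine ⟨h0, ?_, ?_⟩
  · intro x hx
    obtain ⟨p, hp⟩ : ∃ p, x p ≠ 0 := Function.ne_iff.1 hx
    obtain ⟨j, s⟩ := p
    obtain ⟨h1, h2, h3⟩ := bp_facts c j v (h j)
    have hinj : Function.Injective (algebraMap (𝓞 K) (AlgebraicClosure K)) :=
      FaithfulSMul.algebraMap_injective (𝓞 K) (AlgebraicClosure K)
    have hirr := irr_of_mod v (bp c j) (by omega) h2 h3
    have hsep : ((bp c j).map (algebraMap (𝓞 K) (AlgebraicClosure K))).Separable := by
      have e1 : (bp c j).map (algebraMap (𝓞 K) (AlgebraicClosure K)) =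
          ((bp c j).map (algebraMap (𝓞 K) K)).map (algebraMap K (AlgebraicClosure K)) := by
        rw [Polynomial.map_map, ← IsScalarTower.algebraMap_eq]
      rw [e1]
      exact (PerfectField.separable_of_irreducible hirr).map
    have hdeg : ((bp c j).map (algebraMap (𝓞 K) (AlgebraicClosure K))).natDegree = d := by
      rw [Polynomial.natDegree_map_eq_of_injective hinj, h1]
    have hxy : x (j, 0) ≠ 0 ∨ x (j, 1) ≠ 0 := by
      fin_cases s
      · exact Or.inl hp
      · exact Or.inr hp
    have hb : (algebraMap (𝓞 K) (AlgebraicClosure K) (c 0)) ^ (j : ℕ) ≠ 0 :=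
      pow_ne_zero _ (by rwa [Ne, map_eq_zero_iff _ hinj])
    rcases smooth_bin _ d (by omega) hdeg hsep _ _ hxy with h4 | h4
    · refine ⟨(j, 0), ?_⟩
      rw [pderiv_zero]
      refine mul_ne_zero hb ?_
      rw [d0] at h4
      simp only [Polynomial.coeff_map, bp_coeff] at h4
      exact h4
    · refine ⟨(j, 1), ?_⟩
      rw [pderiv_one]
      refine mul_ne_zero hb ?_
      rw [d1] at h4
      simp only [Polynomial.coeff_map, bp_coeff] at h4
      exact h4
  · intro L _ _ _ hL
    have hs : SmallE k d (Module.finrank K L) := by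
      right
      refine ⟨2, Nat.prime_two, ?_⟩
      have hfact : Fact (Nat.Prime 2) := ⟨Nat.prime_two⟩
      have hn0 : Module.finrank K L ≠ 0 := by
        have : 0 < Module.finrank K L := Module.finrank_pos
        exact this.ne'
      have h4 : padicValNat 2 (Module.finrank K L) ≤ 1 := by
        by_contra h5
        apply hL
        have h6 : 2 ^ 2 ∣ Module.finrank K L := (padicValNat_dvd_iff_le hn0).2 (by omega)
        simpa using h6
      have h5 : padicValNat 2 d = 2 := by
        rw [hd4, show (4 : ℕ) = 2 ^ 2 by norm_num, padicValNat.prime_pow]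
      rw [h5, hk2]
      calc 2 * 2 ^ padicValNat 2 (Module.finrank K L) ≤ 2 * 2 ^ 1 :=
            Nat.mul_le_mul_left _ (Nat.pow_le_pow_right two_pos h4)
        _ = 2 ^ 2 := by norm_num
    obtain ⟨q, hq1, hq2⟩ := exists_good_place' (L := L) v k d hk hs
    refine ⟨ovr v q, fun G hG x hx => ?_⟩
    rw [eval_form]
    exact comp_point v k d hd (c 0) hv hv2 (bp c) (fun j => bp_facts c j v (h j)) q hq1 hq2 G
      hG.1 hG.2 x hx

end proof

/-- Let `K` be a number field.  For all vectors `(b, F_0, F_1)` over `O_K`, `F_0` and `F_1` binary quartic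
forms, outside a set of density zero, the quartic surface `F_0(x_{00}, x_{01}) + b F_1(x_{10}, x_{11}) = 0`
is smooth, and for all number fields `L` over `K` with `4 ∤ [L : K]` there is a prime `w` of `L` such that
for all allowed quartic forms `G` the surface `F_0 + b F_1 + G = 0` has no point over `L_w`. -/
theorem result (K : Type u) [Field K] [NumberField K] :
    DensityZero (Exceptional.{u, v} K 2 4) ∧
      ∀ (J : Type w) [Fintype J] (ω : Module.Basis J ℤ (𝓞 K)),
        Tendsto (fun H : ℕ => ((Exceptional.{u, v} K 2 4 ∩ Box ω (2 * (4 + 1) + 1) H).ncard : ℝ) /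
          ((Box ω (2 * (4 + 1) + 1) H).ncard : ℝ)) atTop (𝓝 0) := by
  have key : Pool.Agent.TH120.Sec.DZ (2 * (4 + 1) + 1) (Exceptional.{u, v} K 2 4) := by
    refine Pool.Agent.TH377.Dyn.DZ.mono
      (Pool.Agent.TH377.Hyp.dz_blocks K 2 4 (by norm_num)) ?_
    intro c hc hex
    obtain ⟨v, h1, h2, h3⟩ := hex
    exact good le_rfl (by norm_num) rfl rfl c v h1 h2 h3 hc
  exact ⟨key, fun J _ ω => Pool.Agent.TH377.Dyn.box_tendsto _ key ω⟩

end Pool.Agent.Results.MP_ed3816_nt.QuarticsWithoutAdelicPoints
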